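import Pool.Agent.Helper71.BM.Basic

/-!
# Transversals of pairwise intersecting long cycles: module EXS, there is a long ear
-/

set_option autoImplicit false

namespace Pool.Agent.Helper71.BM

open Finset ErdPos

/-- splitting a list at a position -/
lemma exs_dec1 {V : Type} {l : List V} {i : ℕ} {x : V} (hx : l[i]? = some x) :
    l = l.take i ++ x :: l.drop (i + 1) := by
  obtain ⟨h, hx'⟩ := List.getElem?_eq_some_iff.1 hx
  have h1 := List.drop_eq_getElem_cons h
  rw [hx'] at h1
  rw [← h1, List.take_append_drop]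

/-- splitting a list at two positions -/
lemma exs_dec2 {V : Type} {l : List V} {i j : ℕ} {x y : V} (hij : i < j) (hx : l[i]? = some x)
    (hy : l[j]? = some y) :
    l = l.take i ++ x :: ((l.drop (i + 1)).take (j - i - 1) ++ y :: l.drop (j + 1)) := by
  have h1 := exs_dec1 hx
  have hy' : (l.drop (i + 1))[j - i - 1]? = some y := by
    rw [List.getElem?_drop]
    have : i + 1 + (j - i - 1) = j := by omega
    rw [this]
    exact hy
  have h2 := exs_dec1 hy'
  have h3 : (l.drop (i + 1)).drop (j - i - 1 + 1) = l.drop (j + 1) := by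
    rw [List.drop_drop]
    congr 1
    omega
  rw [h3] at h2
  rw [← h2]
  exact h1

/-- two paths to the terminals and a middle piece form an ear -/
lemma exs_ear {V : Type} [DecidableEq V] {G : SimpleGraph V} {q : ℕ} {W : Finset V} {t : ℕ → V}
    (inj : ∀ i < q, ∀ j < q, t i = t j → i = j)
    {p p' mid : List V} {x y : V} {a b : ℕ} (ha : a < q) (hb : b < q)
    (hp : PL G x (t a) p) (hp' : PL G y (t b) p')
    (hmid : (x :: mid ++ [y]).IsChain G.Adj) (hnd : (p.reverse ++ mid ++ p').Nodup)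
    (hW : ∀ v ∈ p, v ∉ W) (hW' : ∀ v ∈ p', v ∉ W) (hWm : ∀ v ∈ mid, v ∉ W)
    (hT : ∀ v ∈ p, v ∈ Tm q t → v = t a) (hT' : ∀ v ∈ p', v ∈ Tm q t → v = t b)
    (hTm : ∀ v ∈ mid, v ∉ Tm q t) : Ear G q W t a b (p.reverse ++ mid ++ p') := by
  have hab : a ≠ b := by
    rintro rfl
    have h1 : t a ∈ p.reverse := List.mem_reverse.2 hp.last_mem
    have h2 : t a ∈ p' := hp'.last_mem
    rw [List.append_assoc] at hnd
    exact (List.nodup_append.1 hnd).2.2 (t a) h1 (t a) (List.mem_append_right _ h2) rfl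
  refine ⟨ha, hb, hab, ⟨?_, ?_, hnd, ?_⟩, ?_, ?_⟩
  · have h1 := hp.reverse
    obtain ⟨r, hr⟩ := h1.eq_cons
    rw [hr]
    simp
  · rw [List.getLast?_append, hp'.2.1]
    rfl
  · obtain ⟨p1, hp1⟩ := hp.eq_cons
    obtain ⟨p1', hp1'⟩ := hp'.eq_cons
    have h1 : (p1.reverse ++ [x]).IsChain G.Adj := by
      have := hp.reverse.2.2.2
      rw [hp1] at this
      simpa using this
    have h2 : (y :: p1').IsChain G.Adj := by
      have := hp'.2.2.2
      rw [hp1'] at this
      exact this
    have h3 : p.reverse ++ mid ++ p' = p1.reverse ++ x :: (mid ++ y :: p1') := by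
      rw [hp1, hp1']
      simp
    rw [h3, List.isChain_split]
    refine ⟨h1, ?_⟩
    have h4 : x :: (mid ++ y :: p1') = (x :: mid) ++ y :: p1' := by simp
    rw [h4, List.isChain_split]
    exact ⟨hmid, h2⟩
  · intro v hv
    rcases List.mem_append.1 hv with hv | hv
    · rcases List.mem_append.1 hv with hv | hv
      · exact hW v (List.mem_reverse.1 hv)
      · exact hWm v hv
    · exact hW' v hv
  · intro v hv i hi hvi
    have hvT : v ∈ Tm q t := mem_Tm.2 ⟨i, hi, hvi.symm⟩
    rcases List.mem_append.1 hv with hv | hv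
    · rcases List.mem_append.1 hv with hv | hv
      · left
        have := hT v (List.mem_reverse.1 hv) hvT
        exact inj i hi a ha (hvi.symm.trans this)
      · exact absurd hvT (hTm v hv)
    · right
      have := hT' v hv hvT
      exact inj i hi b hb (hvi.symm.trans this)

theorem st_EXS (h1 : ST_MLP) (h2 : ST_PR0) (h3 : ST_FEW) (h4 : ST_HAVC) : ST_EXS := by
  intro V _ _ G k e K q N w W t hC s lam Lam E1 E2 Y m hP
  have hNK : N + w ≤ K := by
    have := hP.hK
    omega
  have hle : lam ≤ e := by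
    have := hP.he
    omega
  -- a long cycle avoiding the hub and the terminals
  have hcard : (W ∪ Tm q t).card ≤ K := by
    have h5 : (Tm q t).card ≤ q := by
      unfold Tm
      exact card_image_le.trans (by rw [card_range])
    have h6 := card_union_le W (Tm q t)
    have h7 := hC.wc
    have h8 := hP.hK
    omega
  obtain ⟨M, hM, hMd⟩ := hC.hit _ hcard
  obtain ⟨l, hl, hlk, hlM⟩ := hM
  have hlW : ∀ v ∈ l, v ∉ W := by
    intro v hv hvW
    have : v ∈ M := by
      rw [← hlM]
      exact List.mem_toFinset.2 hv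
    exact Finset.disjoint_left.1 hMd this (mem_union_left _ hvW)
  have hlT : ∀ v ∈ l, v ∉ Tm q t := by
    intro v hv hvW
    have : v ∈ M := by
      rw [← hlM]
      exact List.mem_toFinset.2 hv
    exact Finset.disjoint_left.1 hMd this (mem_union_right _ hvW)
  have hgap : k + e < l.length := by
    have := hC.gap _ (hl.FL hlk)
    rwa [hl.card] at this
  -- linkage
  have hH := h4 V G k K hC.nu hC.hit
  have hns : NoSep G (univ \ W) l.toFinset (Tm q t) (N + 1) := by
    intro S hS
    obtain ⟨i, hi, hti⟩ := hC.hub.ctl S (by omega)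
    have hc : (S ∪ W).card ≤ K := by
      have h6 := card_union_le S W
      have h7 := hC.wc
      omega
    obtain ⟨v, hv, hvb⟩ := exists_mem_bt hC.nu hH hc (hl.FL hlk)
    have hbt := hH.isBt hc
    obtain ⟨r, hr, hrb⟩ := exists_PL_of_conn hbt.2.1 hvb hti
    refine ⟨v, hv, t i, mem_Tm.2 ⟨i, hi, rfl⟩, r, hr, ?_⟩
    intro u hu
    have h6 := hbt.1 (hrb u hu)
    rw [mem_sdiff, mem_union, not_or] at h6
    exact ⟨mem_sdiff.2 ⟨mem_univ _, h6.2.2⟩, h6.2.1⟩
  obtain ⟨P, hPs, hPl⟩ := h1 V G (univ \ W) l.toFinset (Tm q t) (N + 1) hns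
  -- data of the members of the linkage
  have hmem : ∀ b ∈ P, (∀ v ∈ b, v ∉ W) ∧ ∃ x ∈ l, ∃ a < q, PL G x (t a) b ∧
      (∀ v ∈ b, v ∈ l → v = x) ∧ ∀ v ∈ b, v ∈ Tm q t → v = t a := by
    intro b hb
    obtain ⟨h5, x, hx, z, hz, h6, h7, h8⟩ := hPs.2 b hb
    obtain ⟨a, ha, rfl⟩ := mem_Tm.1 hz
    refine ⟨fun v hv => (mem_sdiff.1 (h5 v hv)).2, x, List.mem_toFinset.1 hx, a, ha, h6, ?_, h8⟩
    intro v hv hvl
    exact h7 v hv (List.mem_toFinset.2 hvl)
  obtain ⟨D, hD1, hD2, hD3, hD4⟩ := h2 V l P hl.nodup hPs.1 (by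
    intro b hb
    obtain ⟨_, x, hx, a, _, h6, h7, _⟩ := hmem b hb
    exact ⟨x, hx, h6.1, h7⟩)
  have hDlen : 6 * m + 5 ≤ D.length := by
    have := hP.hN
    rw [hPl] at hD1
    nlinarith [Nat.zero_le (s ^ 2)]
  have hdata : ∀ r ∈ D, r.l = l ∧ r.i < r.j ∧ r.p ≠ r.p' ∧ ∃ x y a b, l[r.i]? = some x ∧
      l[r.j]? = some y ∧ a < q ∧ b < q ∧ PL G x (t a) r.p ∧ PL G y (t b) r.p' ∧
      (∀ v ∈ r.p, v ∉ W) ∧ (∀ v ∈ r.p', v ∉ W) ∧ (∀ v ∈ r.p, v ∈ l → v = x) ∧
      (∀ v ∈ r.p', v ∈ l → v = y) ∧ (∀ v ∈ r.p, v ∈ Tm q t → v = t a) ∧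
      ∀ v ∈ r.p', v ∈ Tm q t → v = t b := by
    intro r hr
    obtain ⟨⟨h5, h6, ⟨x, hx, hx'⟩, y, hy, hy'⟩, h7, h8⟩ := hD2 r hr
    have hrl : r.l = l := by simpa using h5
    rw [hrl] at hx hy
    obtain ⟨hW, x2, _, a, ha, g1, g2, g3⟩ := hmem r.p h7
    obtain ⟨hW', y2, _, b, hb, g4, g5, g6⟩ := hmem r.p' h8
    have hx2 : x2 = x := by
      have := g1.1
      rw [hx'] at this
      exact (Option.some.inj this).symm
    have hy2 : y2 = y := by
      have := g4.1
      rw [hy'] at this
      exact (Option.some.inj this).symm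
    subst hx2
    subst hy2
    have hne : r.p ≠ r.p' := by
      have h9 : [r.p, r.p'].Nodup := (List.nodup_flatMap.1 hD4).1 r hr
      simpa using h9
    exact ⟨hrl, h6, hne, x2, y2, a, b, hx, hy, ha, hb, g1, g4, hW, hW', g2, g5, g3, g6⟩
  -- the chain of the cycle
  obtain ⟨_, c1, c2, hcyc, hadj⟩ := hl
  have hlc := hcyc.2.2.2
  have hlnd := hcyc.2.2.1
  -- the ears of the pairs
  have hpkg : Pkg G q W t (D.map Rc.F) := by
    refine ⟨hD3, ?_⟩
    intro z hz
    obtain ⟨r, hr, rfl⟩ := List.mem_map.1 hz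
    obtain ⟨hrl, hij, hne, x, y, a, b, hx, hy, ha, hb, g1, g4, hW, hW', g2, g5, g3, g6⟩ :=
      hdata r hr
    refine ⟨a, b, ?_⟩
    have hdec := exs_dec2 hij hx hy
    have hsub : ∀ v ∈ (l.drop (r.i + 1)).take (r.j - r.i - 1), v ∈ l := by
      intro v hv
      exact List.mem_of_mem_drop (List.mem_of_mem_take hv)
    have hch : (x :: (l.drop (r.i + 1)).take (r.j - r.i - 1) ++ [y]).IsChain G.Adj := by
      have g7 := hlc
      rw [hdec, List.isChain_split] at g7
      have g8 := g7.2
      rw [← List.cons_append, List.isChain_split] at g8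
      exact g8.1
    have hnd : (r.F).Nodup := (List.nodup_flatten.1 hD3).1 _ (List.mem_map.2 ⟨r, hr, rfl⟩)
    unfold Rc.F at hnd ⊢
    rw [hrl] at hnd ⊢
    exact exs_ear hC.hub.inj ha hb g1 g4 hch hnd hW hW' (fun v hv => hlW v (hsub v hv)) g3 g6
      (fun v hv => hlT v (hsub v hv))
  -- a short ear
  have hshort : ∃ r ∈ D, (r.F).length < lam := by
    by_contra hcon
    push Not at hcon
    have := h3 V G k e K q N w W t hC s lam Lam E1 E2 Y m hP (D.map Rc.F) hpkg (by
      intro z hz
      obtain ⟨r, hr, rfl⟩ := List.mem_map.1 hz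
      exact hcon r hr)
    rw [List.length_map] at this
    omega
  obtain ⟨r, hr, hrs⟩ := hshort
  obtain ⟨hrl, hij, hne, x, y, a, b, hx, hy, ha, hb, g1, g4, hW, hW', g2, g5, g3, g6⟩ :=
    hdata r hr
  obtain ⟨hp, hp'⟩ := (hD2 r hr).2
  have hdec := exs_dec2 hij hx hy
  -- the pieces
  have hjl : r.j < l.length := (List.getElem?_eq_some_iff.1 hy).1
  have hFlen : (r.F).length = r.p.length + (r.j - r.i - 1) + r.p'.length := by
    unfold Rc.F
    rw [hrl]
    simp only [List.length_append, List.length_reverse, List.length_take, List.length_drop]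
    rw [min_eq_left (by omega)]
  obtain ⟨l1, hl1⟩ : ∃ l1, l1 = l.take r.i := ⟨_, rfl⟩
  obtain ⟨l2, hl2⟩ : ∃ l2, l2 = (l.drop (r.i + 1)).take (r.j - r.i - 1) := ⟨_, rfl⟩
  obtain ⟨l3, hl3⟩ : ∃ l3, l3 = l.drop (r.j + 1) := ⟨_, rfl⟩
  rw [← hl1, ← hl2, ← hl3] at hdec
  have hl2len : l2.length = r.j - r.i - 1 := by
    rw [hl2]
    simp only [List.length_take, List.length_drop]
    omega
  have hllen : l.length = l1.length + l2.length + l3.length + 2 := by
    rw [hdec]
    simp only [List.length_append, List.length_cons]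
    omega
  have hnd := hlnd
  rw [hdec] at hnd
  have hnd1 := List.nodup_append.1 hnd
  have hnd2 := List.nodup_cons.1 hnd1.2.1
  have hnd3 := List.nodup_append.1 hnd2.2
  have hnd4 := List.nodup_cons.1 hnd3.2.1
  have hsub1 : ∀ v ∈ l1, v ∈ l := by
    intro v hv
    rw [hdec]
    exact List.mem_append_left _ hv
  have hsub3 : ∀ v ∈ l3, v ∈ l := by
    intro v hv
    rw [hdec]
    simp [hv]
  have hx1 : x ∉ l1 := by
    intro h
    exact hnd1.2.2 x h x (by simp) rfl
  have hx3 : x ∉ l3 := by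
    intro h
    exact hnd2.1 (by simp [h])
  have hy1 : y ∉ l1 := by
    intro h
    exact hnd1.2.2 y h y (by simp) rfl
  have hy3 : y ∉ l3 := hnd4.1
  have h31 : (l3 ++ l1).Nodup := by
    refine List.nodup_append.2 ⟨hnd4.2, hnd1.1, ?_⟩
    intro u hu v hv huv
    exact hnd1.2.2 v hv u (by simp [hu]) huv.symm
  have hndC : (r.p'.reverse ++ (l3 ++ l1) ++ r.p).Nodup := by
    refine List.nodup_append.2 ⟨List.nodup_append.2 ⟨List.nodup_reverse.2 g4.2.2.1, h31, ?_⟩,
      g1.2.2.1, ?_⟩
    · intro u hu v hv huv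
      subst huv
      have hul : u ∈ l := by
        rcases List.mem_append.1 hv with h | h
        · exact hsub3 u h
        · exact hsub1 u h
      have huy := g5 u (List.mem_reverse.1 hu) hul
      subst huy
      rcases List.mem_append.1 hv with h | h
      · exact hy3 h
      · exact hy1 h
    · intro u hu v hv huv
      subst huv
      rcases List.mem_append.1 hu with hu | hu
      · exact hne (eq_of_mem_flatten hPs.1 hp hp' hv (List.mem_reverse.1 hu))
      · have hul : u ∈ l := by
          rcases List.mem_append.1 hu with h | h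
          · exact hsub3 u h
          · exact hsub1 u h
        have hux := g2 u hv hul
        subst hux
        rcases List.mem_append.1 hu with h | h
        · exact hx3 h
        · exact hx1 h
  -- the chain of the complementary piece
  have hchC : (y :: (l3 ++ l1) ++ [x]).IsChain G.Adj := by
    have c3 := hlc
    rw [hdec, List.isChain_split] at c3
    obtain ⟨c4, c5⟩ := c3
    rw [← List.cons_append, List.isChain_split] at c5
    have c6 := c5.2
    have c7 : y :: (l3 ++ l1) ++ [x] = (y :: l3) ++ (l1 ++ [x]) := by simp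
    rw [c7, List.isChain_append]
    refine ⟨c6, c4, ?_⟩
    intro u hu v hv
    have hu' : u = c2 := by
      have c8 := hcyc.2.1
      rw [hdec] at c8
      have c9 : l1 ++ x :: (l2 ++ y :: l3) = (l1 ++ x :: l2) ++ (y :: l3) := by simp
      rw [c9, List.getLast?_append] at c8
      rw [Option.mem_def] at hu
      rw [hu] at c8
      simpa using c8
    have hv' : v = c1 := by
      have c8 := hcyc.1
      rw [hdec] at c8
      have c9 : l1 ++ x :: (l2 ++ y :: l3) = (l1 ++ [x]) ++ (l2 ++ y :: l3) := by simp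
      rw [c9, List.head?_append] at c8
      rw [Option.mem_def] at hv
      rw [hv] at c8
      simpa using c8
    rw [hu', hv']
    exact hadj
  refine ⟨r.p'.reverse ++ (l3 ++ l1) ++ r.p, ⟨?_, ?_⟩, ?_⟩
  · simpa using hndC
  · intro z hz
    have hz' : z = r.p'.reverse ++ (l3 ++ l1) ++ r.p := by simpa using hz
    subst hz'
    refine ⟨b, a, exs_ear hC.hub.inj hb ha g4 g1 hchC hndC hW' hW ?_ g6 g3 ?_⟩
    · intro v hv
      rcases List.mem_append.1 hv with h | h
      · exact hlW v (hsub3 v h)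
      · exact hlW v (hsub1 v h)
    · intro v hv
      rcases List.mem_append.1 hv with h | h
      · exact hlT v (hsub3 v h)
      · exact hlT v (hsub1 v h)
  · have hpl : 1 ≤ r.p.length := List.length_pos_iff.2 g1.ne_nil
    have hpl' : 1 ≤ r.p'.length := List.length_pos_iff.2 g4.ne_nil
    simp only [List.length_append, List.length_reverse]
    omega

end Pool.Agent.Helper71.BM
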